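import Pool.Agent.MP_d4b492_an.st.Fin

/-! Linear stability of the rigidity of bi-Lipschitz embeddings of the Sierpinski carpet. -/

set_option autoImplicit false

namespace Pool.Agent.Results.MP_d4b492_an.RoughRigidity

open Pool.Agent.MP_d4b492_an.St

/-- For every `K` there is `B` such that a map on a set `E` at Hausdorff distance at most `η` from
the carpet that is `K`-bi-Lipschitz up to the additive error `η` and has its values within `η` of
the carpet is within `B η` of one cell map. -/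
theorem result : ∀ K : ℝ, ∃ B : ℝ, ∀ (η : ℝ) (E : Set (EuclideanSpace ℝ (Fin 2)))
    (f : EuclideanSpace ℝ (Fin 2) → EuclideanSpace ℝ (Fin 2)), 0 ≤ η →
    (∀ x ∈ E, ∃ y ∈ carpet, dist x y ≤ η) → (∀ y ∈ carpet, ∃ x ∈ E, dist x y ≤ η) →
    (∀ x ∈ E, ∃ y ∈ carpet, dist (f x) y ≤ η) →
    (∀ x ∈ E, ∀ y ∈ E,
      dist x y ≤ K * dist (f x) (f y) + η ∧ dist (f x) (f y) ≤ K * dist x y + η) →
    ∃ k : ℕ, ∃ c ∈ addr k, ∃ w s t : Bool,
      ∀ x ∈ E, dist (f x) (cellMap k c w s t x) ≤ B * η :=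
  main2

end Pool.Agent.Results.MP_d4b492_an.RoughRigidity
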