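import Pool.Agent.MP_d4b492_an.st.Ms

/-! Bi-Lipschitz maps between subsets of the Sierpinski carpet are piecewise similarities almost
everywhere. -/

set_option autoImplicit false

namespace Pool.Agent.Results.MP_d4b492_an.SubsetMaps

open Pool.Agent.MP_d4b492_an.St

/-- A bi-Lipschitz map from any subset `E` of the carpet into the carpet agrees, at almost every
point of `E` for the Hausdorff measure of dimension `log 8 / log 3`, with a member of one fixed
countable family of similarities of the plane. -/
theorem result : ∀ (K : ℝ) (E : Set (EuclideanSpace ℝ (Fin 2)))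
    (f : EuclideanSpace ℝ (Fin 2) → EuclideanSpace ℝ (Fin 2)), E ⊆ carpet →
    Set.MapsTo f E carpet →
    (∀ x ∈ E, ∀ y ∈ E, dist x y ≤ K * dist (f x) (f y) ∧ dist (f x) (f y) ≤ K * dist x y) →
    MeasureTheory.Measure.hausdorffMeasure (Real.logb 3 8)
      {x | x ∈ E ∧ ¬∃ (n k : ℕ) (c : ℤ × ℤ) (w s t : Bool),
        f x = cellMap k c w s t ((3 : ℝ) ^ n • x)} = 0 :=
  main3

end Pool.Agent.Results.MP_d4b492_an.SubsetMaps
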